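import Mathlib
import Pool.Agent.H16.InqBQ

set_option autoImplicit false

namespace Pool.Agent.Results.MP_130315_lc.Uncountable

open Pool.Agent.H16.InqBQ

/-- An InqBQ invalidity over a finite signature with no countermodel of countable domain. -/
theorem result :
    ∃ (σ : Sig) (φ : Form σ), Finite σ.P ∧ Finite σ.F ∧
      (∀ M : Model σ, Countable M.D → ∀ (s : Set M.W) (g : ℕ → M.D), M.Sup φ s g) ∧
      ∃ (M : Model σ) (s : Set M.W) (g : ℕ → M.D), ¬ M.Sup φ s g :=
  ⟨S0, chi, inferInstanceAs (Finite Empty), inferInstanceAs (Finite Fn), countable_sup,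
    big, _, _, big_not⟩

end Pool.Agent.Results.MP_130315_lc.Uncountable
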